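import Pool.Agent.H96C3.Upper3
import Pool.Agent.H96C3.Lower

/-!
The moments of the coding radius of finitary 3-colorings of `ℤ ^ d`, `d ≥ 2`.

For every `d ≥ 2` the admissible exponents are exactly those in the open interval `(0, 1)`.

Lower bound for the tail. Let `Y` be the coloring in which only the labels at distance at most `r`
are used. Outside an event whose probability is at most a constant times `r * P(R > r)`, the height
function of `Y` is well defined on a rectangle of size `6 r`. Freezing the labels of one side of the
rectangle shows that the height difference along a segment of length `6 r` is nearly a sum of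
functions of the labels near its two ends, and it follows that, for all `M ≤ 3 r`, the height
difference along a segment of length `M` is nearly `M * k + w(end) - w(start)` for a constant
odd integer `k`, so that the coloring is nearly periodic along segments. Then the color of the
origin is nearly constant, which is not possible for a proper coloring.

Construction. The coloring is obtained from a Lipschitz function which is interpolated from coarse
to fine scales; at each scale there is a Voronoi-like partition with random radii, and deep inside a
cell the function is determined modulo `6` by the labels near the cell.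
-/

set_option autoImplicit false

open MeasureTheory
open scoped ENNReal

namespace Pool.Agent.Results.MP_69ceda_pr.CodingRadius

open Pool.Agent.H96C3

/-- The exponents `α > 0` for which some finitary factor of i.i.d. proper 3-coloring of `ℤ ^ d`,
with labels uniform on `[0, 1]`, has a coding radius with a finite moment of order `α`. -/
def Admissible (d : ℕ) : Set ℝ :=
  {α | 0 < α ∧ ∃ Φ : (V d → unitInterval) → V d → Fin 3, IsFFIID volume Φ ∧ HasMoment volume Φ α}

theorem admissible_eq (d : ℕ) (hd : 2 ≤ d) : Admissible d = Set.Ioo 0 1 := by
  ext α
  constructor
  · rintro ⟨h0, Φ, h1, h2⟩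
    refine ⟨h0, ?_⟩
    by_contra hc
    exact no_moment hd h1.weak (not_lt.1 hc) h2
  · rintro ⟨h0, h1⟩
    obtain ⟨Φ, h2, h3⟩ := exists_ffiid d
    exact ⟨h0, Φ, h2, h3 α h0 h1⟩

/-- For every `d ≥ 2`, the exponents `α > 0` such that some finitary factor of i.i.d. proper
3-coloring of `ℤ ^ d` has a coding radius `R` with a finite moment of order `α` are exactly those in
the open interval `(0, 1)`, so that their supremum is `1` and it is not attained. A single
finitary factor has all the moments of order less than `1`. And for all the spaces of labels
`P (R > r) ≥ 1 / (364 r)` for all `r ≥ 1`, and `E R ^ α = ∞` for all `α ≥ 1`. -/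
theorem result (d : ℕ) (hd : 2 ≤ d) :
    Admissible d = Set.Ioo 0 1 ∧ sSup (Admissible d) = 1 ∧
    (∃ Φ : (V d → unitInterval) → V d → Fin 3, IsFFIID volume Φ ∧
      ∀ α : ℝ, 0 < α → α < 1 → HasMoment volume Φ α) ∧
    (∀ (S : Type*) [MeasurableSpace S] (μ : Measure S) [IsProbabilityMeasure μ]
      (Φ : (V d → S) → V d → Fin 3), IsWeakFactor μ Φ →
      (∀ r : ℕ, 1 ≤ r →
        ENNReal.ofReal (1 / (364 * (r : ℝ))) ≤ law d μ {ω | (r : ℕ∞) < radius Φ ω}) ∧
      (∀ α : ℝ, 1 ≤ α → ∫⁻ ω, (radius Φ ω : ℝ≥0∞) ^ α ∂(law d μ) = ⊤)) := by
  refine ⟨admissible_eq d hd, ?_, exists_ffiid d, ?_⟩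
  · rw [admissible_eq d hd]
    exact csSup_Ioo (by norm_num)
  · intro S _ μ _ Φ h
    exact ⟨fun r hr => radius_tail hd h hr, fun α hα => radius_infinite_mean hd h hα⟩

end Pool.Agent.Results.MP_69ceda_pr.CodingRadius
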